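import Pool.Agent.helper23.CO.Spec

/-! # co:CHM: change of measure -/

open Finset Filter Topology

namespace CO

theorem CHM_smul {V : Type} [Fintype V] [DecidableEq V] (w f : (V → Bool) → ℝ) (c : ℝ) :
    aw w (fun σ => c * f σ) = c * aw w f := by
  unfold aw
  rw [← mul_div_assoc, mul_sum]
  congr 1
  apply sum_congr rfl
  intro σ _
  ring

theorem CHM (hCAB : CAB_stmt) : CHM_stmt := by
  intro V _ _ P Q hP hQ A v hv
  obtain ⟨-, -, -, htow, -, hmaQ, -⟩ := hCAB V Q hQ A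
  obtain ⟨-, -, -, -, -, hmaP, -⟩ := hCAB V P hP A
  refine ⟨?_, fun σ => div_pos (hmaP σ).1 (hmaQ σ).1⟩
  have hZP : 0 < ∑ σ : V → Bool, P σ := sum_pos (fun σ _ => hP σ) univ_nonempty
  have hZQ : 0 < ∑ σ : V → Bool, Q σ := sum_pos (fun σ _ => hQ σ) univ_nonempty
  have hSQ : ∀ σ, 0 < ∑ η ∈ fb A σ, Q η := by
    intro σ
    apply sum_pos (fun σ _ => hQ σ)
    exact ⟨σ, mem_filter.2 ⟨mem_univ _, fun x _ => rfl⟩⟩
  have h1 : ∀ σ, ca Q A (fun η => P η / Q η) σ = (∑ η ∈ fb A σ, P η) / ∑ η ∈ fb A σ, Q η := by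
    intro σ
    unfold ca
    congr 1
    apply sum_congr rfl
    intro η _
    have := (hQ η).ne'
    field_simp
  have h2 := htow (fun η => P η / Q η) v hv
  have h3 : (fun σ => dn P Q A σ * v σ) = fun σ => ((∑ σ : V → Bool, Q σ) / ∑ σ : V → Bool, P σ) *
      (ca Q A (fun η => P η / Q η) σ * v σ) := by
    funext σ
    rw [h1]
    unfold dn ma
    have h4 := (hSQ σ).ne'
    field_simp
  rw [h3, CHM_smul, h2]
  unfold aw
  have h5 : ∑ σ : V → Bool, Q σ * (P σ / Q σ * v σ) = ∑ σ : V → Bool, P σ * v σ := by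
    apply sum_congr rfl
    intro σ _
    have := (hQ σ).ne'
    field_simp
  rw [h5]
  field_simp

end CO
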