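import Pool.Agent.helper23.CO.SpecB

/-! # co:JMP: comparison of the two point functions -/

open Finset Filter Topology

namespace CO

open CU

theorem JMP_HH (hHHT : HHT_stmt) {d n : ℕ} [NeZero n] (b h : ℝ) (σ : Conf d n) :
    CWM.HH (KT b fun _ => 0) (fun _ => h) σ = b * HN σ + h * Mg σ := by
  have h1 := (hHHT d n b h (fun _ => 0) σ).1
  rw [h1]
  simp

/-- the expectation of the nearest neighbour energy -/
theorem JMP_avg (hHHT : HHT_stmt) (hTRI : TRI_stmt) (d n : ℕ) [NeZero n] (s h : ℝ) :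
    (∑ σ : Conf d n, Real.exp (h * Mg σ + s * HN σ) * HN σ) / ∑ σ : Conf d n, Real.exp (h * Mg σ + s * HN σ) =
      (Fintype.card (Site d n) : ℝ) * ∑ i : Fin d, cT s (fun _ => 0) h (ev i : Site d n) := by
  have hE : ∀ σ : Conf d n, Real.exp (h * Mg σ + s * HN σ) =
      Real.exp (CWM.HH (KT s fun _ => 0) (fun _ => h) σ) := by
    intro σ
    rw [JMP_HH hHHT, add_comm]
  simp only [hE]
  have h1 : ∀ (x : Site d n) (i : Fin d), cT s (fun _ => 0) h (ev i : Site d n) =
      c2 (KT s fun _ => 0) (fun _ => h) x (x + ev i) := by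
    intro x i
    rw [(hTRI d n s h (fun _ => 0)).1 x (x + ev i), add_sub_cancel_left]
  have h2 : (Fintype.card (Site d n) : ℝ) * ∑ i : Fin d, cT s (fun _ => 0) h (ev i : Site d n) =
      ∑ x : Site d n, ∑ i : Fin d, c2 (KT s fun _ => 0) (fun _ => h) x (x + ev i) := by
    rw [← nsmul_eq_mul, ← Finset.card_univ, ← Finset.sum_const]
    exact Finset.sum_congr rfl fun x _ => Finset.sum_congr rfl fun i _ => h1 x i
  rw [h2]
  unfold c2 ex HN
  simp only [Finset.mul_sum, Finset.sum_div]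
  rw [Finset.sum_comm]
  apply Finset.sum_congr rfl
  intro x _
  rw [Finset.sum_comm]

theorem JMP_KT_nonneg {d n : ℕ} [NeZero n] (b : ℝ) (hb : 0 ≤ b) (x y : Site d n) :
    0 ≤ KT b (fun _ => 0) x y := by
  unfold KT
  rw [add_zero]
  apply mul_nonneg hb
  apply Finset.sum_nonneg
  intro i _
  split_ifs
  · exact zero_le_one
  · exact le_rfl

theorem JMP_KT_mono {d n : ℕ} [NeZero n] (b b' : ℝ) (hb : 0 ≤ b) (hbb : b ≤ b') (x y : Site d n) :
    |KT b (fun _ => 0) x y| ≤ KT b' (fun _ => 0) x y := by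
  rw [abs_of_nonneg (JMP_KT_nonneg b hb x y)]
  unfold KT
  rw [add_zero, add_zero]
  apply mul_le_mul_of_nonneg_right hbb
  apply Finset.sum_nonneg
  intro i _
  split_ifs
  · exact zero_le_one
  · exact le_rfl

theorem JMP_sg (b : Bool) : sg b ≤ 1 := by
  unfold sg
  split_ifs
  · exact le_rfl
  · norm_num

theorem JMP (hLPI : LPI_stmt) (hGK2 : GK2_stmt) (hTRI : TRI_stmt) (hHHT : HHT_stmt) (hLZ : LZ_stmt)
    (hRAT : RAT_stmt) : JMP_stmt := by
  intro d n _ hn b1 b2 h μ hb1 hb12 hh hμ hmT x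
  set N : ℝ := (Fintype.card (Site d n) : ℝ) with hN
  have hN0 : 0 < N := by
    rw [hN]
    exact_mod_cast Fintype.card_pos
  -- the two free energies
  have hd1 := (hLZ (Conf d n) (fun σ => h * Mg σ) HN).1
  have hd0 := (hLZ (Conf d n) (fun σ => 0 * Mg σ) HN).1
  set F1 : ℝ → ℝ := fun t => Real.log (∑ σ : Conf d n, Real.exp (h * Mg σ + t * HN σ)) with hF1
  set F0 : ℝ → ℝ := fun t => Real.log (∑ σ : Conf d n, Real.exp (0 * Mg σ + t * HN σ)) with hF0
  have hder : ∀ t : ℝ, HasDerivAt (fun t => F1 t - F0 t)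
      (N * ∑ i : Fin d, cT t (fun _ => 0) h (ev i : Site d n) - N * ∑ i : Fin d, cT t (fun _ => 0) 0 (ev i : Site d n)) t := by
    intro t
    have a1 := hd1 t
    have a0 := hd0 t
    rw [JMP_avg hHHT hTRI] at a1 a0
    exact a1.sub a0
  -- bounds at the ends
  have hend : ∀ t : ℝ, 0 ≤ t → 0 ≤ F1 t - F0 t ∧ F1 t - F0 t ≤ h * N := by
    intro t ht
    obtain ⟨c1, c2'⟩ := (hLZ (Conf d n) (fun σ => t * HN σ) Mg).2 h hh
    have e1 : F1 t = Real.log (∑ σ : Conf d n, Real.exp (t * HN σ + h * Mg σ)) := by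
      rw [hF1]
      simp only [add_comm]
    have e0 : F0 t = Real.log (∑ σ : Conf d n, Real.exp (t * HN σ)) := by
      rw [hF0]
      simp only [zero_mul, zero_add]
    rw [e1, e0]
    constructor
    · refine le_trans ?_ c1
      apply mul_nonneg hh
      have e2 : (∑ σ : Conf d n, Real.exp (t * HN σ) * Mg σ) / ∑ σ : Conf d n, Real.exp (t * HN σ) =
          ∑ y : Site d n, ex (KT t fun _ => 0) (fun _ => 0) fun σ : Conf d n => sg (σ y) := by
        unfold ex Mg
        simp only [JMP_HH hHHT, zero_mul, add_zero, Finset.mul_sum, Finset.sum_div]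
        rw [Finset.sum_comm]
      rw [e2]
      apply Finset.sum_nonneg
      intro y _
      exact ((hGK2 (Site d n) (KT t fun _ => 0) (fun _ => 0) (JMP_KT_nonneg t ht) (fun _ => le_rfl)).2.1 y).1
    · refine c2'.trans ?_
      apply mul_le_mul_of_nonneg_left _ hh
      have hpos : 0 < ∑ σ : Conf d n, Real.exp (t * HN σ + h * Mg σ) :=
        Finset.sum_pos (fun σ _ => Real.exp_pos _) Finset.univ_nonempty
      rw [div_le_iff₀ hpos, Finset.mul_sum]
      apply Finset.sum_le_sum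
      intro σ _
      rw [mul_comm N]
      apply mul_le_mul_of_nonneg_left _ (Real.exp_pos _).le
      unfold Mg
      refine (Finset.sum_le_sum fun y _ => JMP_sg (σ y)).trans ?_
      rw [Finset.sum_const, nsmul_eq_mul, mul_one, Finset.card_univ]
  -- mean value theorem
  obtain ⟨s, hs, hs'⟩ := exists_hasDerivAt_eq_slope (fun t => F1 t - F0 t)
    (fun t => N * ∑ i : Fin d, cT t (fun _ => 0) h (ev i : Site d n) - N * ∑ i : Fin d, cT t (fun _ => 0) 0 (ev i : Site d n)) hb12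
    (fun t _ => (hder t).continuousAt.continuousWithinAt) (fun t _ => hder t)
  have hs0 : 0 ≤ s := hb1.trans hs.1.le
  have hbb : 0 < b2 - b1 := sub_pos.2 hb12
  have hD : ∑ i : Fin d, (cT s (fun _ => 0) h (ev i : Site d n) - cT s (fun _ => 0) 0 (ev i : Site d n)) ≤ h / (b2 - b1) := by
    have h1 : N * ∑ i : Fin d, (cT s (fun _ => 0) h (ev i : Site d n) - cT s (fun _ => 0) 0 (ev i : Site d n)) ≤ h * N / (b2 - b1) := by
      rw [Finset.sum_sub_distrib, mul_sub, hs']
      apply div_le_div_of_nonneg_right _ hbb.le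
      have := (hend b1 hb1).1
      have := (hend b2 (hb1.trans hb12.le)).2
      linarith
    have h2 : h * N / (b2 - b1) = N * (h / (b2 - b1)) := by ring
    rw [h2] at h1
    exact le_of_mul_le_mul_left h1 hN0
  -- lower bound of the two point function in the field
  have hms : μ ≤ mT d n s h := by
    have h1 := (hLPI (Site d n) (KT s fun _ => 0) (KT b1 fun _ => 0) (fun _ => h) (fun _ => h)
      (JMP_KT_mono b1 s hb1 hs.1.le) (fun _ => (abs_of_nonneg hh).le)).1 0
    exact hmT.trans ((le_abs_self _).trans h1)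
  have hlow : ∀ y : Site d n, μ ^ 2 ≤ cT s (fun _ => 0) h y := by
    intro y
    have h1 := (hGK2 (Site d n) (KT s fun _ => 0) (fun _ => h) (JMP_KT_nonneg s hs0) (fun _ => hh)).1 0 y
    rw [(hTRI d n s h (fun _ => 0)).2.1 y] at h1
    refine le_trans ?_ h1
    rw [pow_two]
    exact mul_le_mul hms hms hμ.le (hμ.le.trans hms)
  obtain ⟨hD0, hR⟩ := hRAT d n hn s h 0 μ (fun _ => 0) (fun _ => 0) hs0 hμ (fun _ => by simp)
    (by rw [abs_zero]; exact hh) hlow
  have hRx := hR x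
  set D : ℝ := ∑ i : Fin d, (cT s (fun _ => 0) h (ev i : Site d n) - cT s (fun _ => 0) 0 (ev i : Site d n)) with hDd
  have hnrm : 0 ≤ nrm x := by
    unfold nrm
    exact Finset.sum_nonneg fun k _ => Nat.cast_nonneg _
  have hμ4 : 0 < μ ^ 4 := by positivity
  have e3 : nrm x * (h / ((b2 - b1) * μ ^ 4)) = nrm x * (h / (b2 - b1)) / μ ^ 4 := by
    field_simp
  have hmono : cT s (fun _ => 0) 0 x ≤ cT b2 (fun _ => 0) 0 x := by
    have h1 := (hLPI (Site d n) (KT b2 fun _ => 0) (KT s fun _ => 0) (fun _ => 0) (fun _ => 0)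
      (JMP_KT_mono s b2 hs0 hs.2.le) (fun _ => by simp)).2.1 0 x
    exact (le_abs_self _).trans h1
  have hDle : nrm x * D / μ ^ 4 ≤ nrm x * (h / (b2 - b1)) / μ ^ 4 := by
    apply div_le_div_of_nonneg_right _ hμ4.le
    exact mul_le_mul_of_nonneg_left hD hnrm
  rw [e3]
  rcases le_or_gt 0 (1 - nrm x * (h / (b2 - b1)) / μ ^ 4) with hc | hc
  · calc (1 - nrm x * (h / (b2 - b1)) / μ ^ 4) * μ ^ 2 ≤
        (1 - nrm x * (h / (b2 - b1)) / μ ^ 4) * cT s (fun _ => 0) h x :=
          mul_le_mul_of_nonneg_left (hlow x) hc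
      _ ≤ (1 - nrm x * D / μ ^ 4) * cT s (fun _ => 0) h x := by
          apply mul_le_mul_of_nonneg_right (by linarith)
          exact (by positivity : (0 : ℝ) ≤ μ ^ 2).trans (hlow x)
      _ = cT s (fun _ => 0) h x * (1 - nrm x * D / μ ^ 4) := mul_comm _ _
      _ ≤ cT s (fun _ => 0) 0 x := hRx
      _ ≤ _ := hmono
  · have h1 : (1 - nrm x * (h / (b2 - b1)) / μ ^ 4) * μ ^ 2 ≤ 0 :=
      mul_nonpos_of_nonpos_of_nonneg hc.le (by positivity)
    have h2 := ((hGK2 (Site d n) (KT b2 fun _ => 0) (fun _ => 0) (JMP_KT_nonneg b2 (hb1.trans hb12.le))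
      (fun _ => le_rfl)).2.2 0 x).1
    exact h1.trans h2

end CO
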