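import Pool.Agent.helper23.CO.SpecC

/-!
# Project co (MP_7c3fb3_pr), row DIR
-/

open Finset Filter Topology

namespace CO

open CU

section

variable {d n : ℕ} [NeZero n]

theorem DIR_sq (β : ℝ) (f g : Conf d n → ℝ) : Ex β (fun σ => (f σ - g σ) ^ 2) =
    Ex β (fun σ => f σ * f σ) - 2 * Ex β (fun σ => f σ * g σ) + Ex β (fun σ => g σ * g σ) := by
  unfold Ex
  rw [← mul_div_assoc, ← sub_div, ← add_div, mul_sum, ← sum_sub_distrib, ← sum_add_distrib]
  congr 1
  apply sum_congr rfl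
  intro σ _
  ring

theorem DIR_mul (β : ℝ) (f g h k : Conf d n → ℝ) : Ex β (fun σ => (f σ - g σ) * (h σ - k σ)) =
    Ex β (fun σ => f σ * h σ) - Ex β (fun σ => f σ * k σ) - Ex β (fun σ => g σ * h σ) + Ex β (fun σ => g σ * k σ) := by
  unfold Ex
  rw [← sub_div, ← sub_div, ← add_div, ← sum_sub_distrib, ← sum_sub_distrib, ← sum_add_distrib]
  congr 1
  apply sum_congr rfl
  intro σ _
  ring

theorem DIR_nonneg (β : ℝ) (f : Conf d n → ℝ) (hf : ∀ σ, 0 ≤ f σ) : 0 ≤ Ex β f := by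
  unfold Ex
  apply div_nonneg
  · exact sum_nonneg fun σ _ => mul_nonneg (Real.exp_pos _).le (hf σ)
  · exact sum_nonneg fun σ _ => (Real.exp_pos _).le

theorem DIR_pf (β : ℝ) (f v : Conf d n → ℝ) : Ex β (fun σ => f σ * Pf β v σ) =
    (∑ x : Site d n, Ex β (fun σ => f σ * Kx β x v σ)) / (Fintype.card (Site d n) : ℝ) := by
  unfold Ex Pf
  rw [← sum_div, div_right_comm]
  congr 1
  rw [sum_comm, sum_div]
  apply sum_congr rfl
  intro σ _
  rw [← mul_sum, ← mul_sum]
  ring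

theorem DIR_card : (0 : ℝ) < (Fintype.card (Site d n) : ℝ) := by
  have : 0 < Fintype.card (Site d n) := Fintype.card_pos
  exact_mod_cast this

end

theorem DIR (hERA : ERA_stmt) (hERT : ERT_stmt) (hERK : ERK_stmt) (hREV : CU.REV_stmt) (hLIN : CU.LIN_stmt) : DIR_stmt := by
  intro d n _ β s
  have hK : ∀ (x : Site d n) (f : Conf d n → ℝ), Kx β x f = ER β {x} f := fun x f => funext fun σ => (hERK d n β f).1 x σ
  have hsa : ∀ (x : Site d n) (f g : Conf d n → ℝ), Ex β (fun σ => Kx β x f σ * g σ) = Ex β (fun σ => f σ * Kx β x g σ) := by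
    intro x f g
    rw [hK, hK]
    exact (hERT d n β {x} f g).2.2.2
  have hid : ∀ (x : Site d n) (f : Conf d n → ℝ), Kx β x (Kx β x f) = Kx β x f := by
    intro x f
    rw [hK, hK]
    funext σ
    exact (hERT d n β {x} f f).1 {x} σ (Finset.Subset.refl _)
  have hKK : ∀ (x : Site d n) (f : Conf d n → ℝ), Ex β (fun σ => Kx β x f σ * Kx β x f σ) = Ex β (fun σ => f σ * Kx β x f σ) := by
    intro x f
    rw [hsa x f (Kx β x f), hid]
  have hN : (0 : ℝ) < (Fintype.card (Site d n) : ℝ) := DIR_card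
  have hPpos : ∀ f : Conf d n → ℝ, 0 ≤ Ex β (fun σ => f σ * Pf β f σ) := by
    intro f
    rw [DIR_pf]
    apply div_nonneg _ hN.le
    apply sum_nonneg
    intro x _
    rw [← hKK]
    exact DIR_nonneg β _ fun σ => mul_self_nonneg _
  have hit0 : ∀ (u : Conf d n → ℝ) (i : ℕ), Ex β (fun σ => u σ * (Pf β)^[2 * i] u σ) =
      Ex β (fun σ => (Pf β)^[i] u σ * (Pf β)^[i] u σ) := by
    intro u i
    rw [two_mul, Function.iterate_add_apply]
    exact (hREV d n β u ((Pf β)^[i] u) i).1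
  have hit1 : ∀ (u : Conf d n → ℝ) (i : ℕ), Ex β (fun σ => u σ * (Pf β)^[2 * i + 1] u σ) =
      Ex β (fun σ => (Pf β)^[i] u σ * Pf β ((Pf β)^[i] u) σ) := by
    intro u i
    have e : 2 * i + 1 = i + (i + 1) := by ring
    rw [e, Function.iterate_add_apply, Function.iterate_succ_apply']
    exact (hREV d n β u (Pf β ((Pf β)^[i] u)) i).1
  have hpos : ∀ (u : Conf d n → ℝ) (j : ℕ), 0 ≤ Ex β (fun σ => u σ * (Pf β)^[j] u σ) := by
    intro u j
    rcases Nat.even_or_odd' j with ⟨i, hi | hi⟩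
    · rw [hi, hit0]
      exact DIR_nonneg β _ fun σ => mul_self_nonneg _
    · rw [hi, hit1]
      exact hPpos _
  set a : ℕ → ℝ := fun j => Ex β (fun σ : Conf d n => Mg σ * (Pf β)^[j] Mg σ) with ha
  have hconv : ∀ j, a (j + 1) - a (j + 2) ≤ a j - a (j + 1) := by
    intro j
    have h0 := hpos (fun σ => Mg σ - Pf β Mg σ) j
    have e1 : (Pf β)^[j] (fun σ : Conf d n => Mg σ - Pf β Mg σ) = fun σ => (Pf β)^[j] Mg σ - (Pf β)^[j + 1] Mg σ := by
      have h1 := (hLIN d n β Mg (Pf β Mg) 1 (-1) j).1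
      have e2 : (fun σ : Conf d n => Mg σ - Pf β Mg σ) = fun σ => 1 * Mg σ + (-1) * Pf β Mg σ := by
        funext σ
        ring
      rw [e2, h1]
      funext σ
      rw [Function.iterate_succ_apply]
      ring
    rw [e1] at h0
    rw [DIR_mul β Mg (Pf β Mg) ((Pf β)^[j] Mg) ((Pf β)^[j + 1] Mg)] at h0
    have r1 : Ex β (fun σ : Conf d n => Pf β Mg σ * (Pf β)^[j] Mg σ) = a (j + 1) := by
      have h2 := (hREV d n β Mg ((Pf β)^[j] Mg) 1).1
      simp only [Function.iterate_one] at h2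
      rw [← h2, ha]
      simp only [Function.iterate_succ_apply']
    have r2 : Ex β (fun σ : Conf d n => Pf β Mg σ * (Pf β)^[j + 1] Mg σ) = a (j + 2) := by
      have h2 := (hREV d n β Mg ((Pf β)^[j + 1] Mg) 1).1
      simp only [Function.iterate_one] at h2
      rw [← h2, ha]
      simp only [Function.iterate_succ_apply']
    rw [r1, r2] at h0
    have r3 : Ex β (fun σ : Conf d n => Mg σ * (Pf β)^[j] Mg σ) = a j := rfl
    have r4 : Ex β (fun σ : Conf d n => Mg σ * (Pf β)^[j + 1] Mg σ) = a (j + 1) := rfl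
    rw [r3, r4] at h0
    linarith
  have hanti : Antitone (fun j => a j - a (j + 1)) := antitone_nat_of_succ_le fun j => hconv j
  have hsum : (2 * s + 1 : ℝ) * (a (2 * s) - a (2 * s + 1)) ≤ a 0 - a (2 * s + 1) := by
    have h1 : ∑ j ∈ range (2 * s + 1), (a j - a (j + 1)) = a 0 - a (2 * s + 1) := Finset.sum_range_sub' a (2 * s + 1)
    rw [← h1]
    have h2 : ∑ j ∈ range (2 * s + 1), (a (2 * s) - a (2 * s + 1)) ≤ ∑ j ∈ range (2 * s + 1), (a j - a (j + 1)) := by
      apply sum_le_sum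
      intro j hj
      have : j ≤ 2 * s := by
        have := mem_range.mp hj
        omega
      exact hanti this
    rw [sum_const, card_range, nsmul_eq_mul] at h2
    push_cast at h2
    exact h2
  have ha0 : a 0 ≤ (Fintype.card (Site d n) : ℝ) ^ 2 := by
    have hM : ∀ σ : Conf d n, Mg σ * Mg σ ≤ (Fintype.card (Site d n) : ℝ) ^ 2 := by
      intro σ
      have h1 : |Mg σ| ≤ (Fintype.card (Site d n) : ℝ) := by
        unfold Mg
        refine (abs_sum_le_sum_abs _ _).trans ?_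
        have h2 : ∀ x ∈ (univ : Finset (Site d n)), |sg (σ x)| ≤ 1 := by
          intro x _
          unfold sg
          split_ifs <;> simp
        refine (sum_le_sum h2).trans ?_
        simp
      have h3 : Mg σ * Mg σ = |Mg σ| ^ 2 := by
        rw [sq_abs]
        ring
      rw [h3]
      exact pow_le_pow_left₀ (abs_nonneg _) h1 2
    have h4 := (hLIN d n β (fun σ : Conf d n => Mg σ * Mg σ) (fun _ => (Fintype.card (Site d n) : ℝ) ^ 2) 0 0 0).2.2.2.1 hM
    have h5 := (hLIN d n β (fun σ : Conf d n => Mg σ * Mg σ) (fun _ => (Fintype.card (Site d n) : ℝ) ^ 2) ((Fintype.card (Site d n) : ℝ) ^ 2) 0 0).2.2.2.2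
    rw [h5] at h4
    exact h4
  have hlast : 0 ≤ a (2 * s + 1) := hpos Mg (2 * s + 1)
  have hmain : ∑ x : Site d n, Ex β (fun σ : Conf d n => (gs β s σ - Kx β x (gs β s) σ) ^ 2) =
      (Fintype.card (Site d n) : ℝ) * (a (2 * s) - a (2 * s + 1)) := by
    have e1 : ∀ x : Site d n, Ex β (fun σ : Conf d n => (gs β s σ - Kx β x (gs β s) σ) ^ 2) =
        Ex β (fun σ : Conf d n => gs β s σ * gs β s σ) - Ex β (fun σ : Conf d n => gs β s σ * Kx β x (gs β s) σ) := by
      intro x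
      rw [DIR_sq, hKK]
      ring
    rw [sum_congr rfl fun x _ => e1 x, sum_sub_distrib, sum_const, card_univ, nsmul_eq_mul]
    have e2 : Ex β (fun σ : Conf d n => gs β s σ * gs β s σ) = a (2 * s) := (hit0 Mg s).symm
    have e3 : ∑ x : Site d n, Ex β (fun σ : Conf d n => gs β s σ * Kx β x (gs β s) σ) = (Fintype.card (Site d n) : ℝ) * a (2 * s + 1) := by
      have e4 : a (2 * s + 1) = Ex β (fun σ : Conf d n => gs β s σ * Pf β (gs β s) σ) := hit1 Mg s
      rw [e4, DIR_pf, mul_div_cancel₀ _ hN.ne']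
    rw [e2, e3]
    ring
  rw [hmain, le_div_iff₀ (by positivity)]
  have h6 : (2 * s + 1 : ℝ) * (a (2 * s) - a (2 * s + 1)) ≤ (Fintype.card (Site d n) : ℝ) ^ 2 := by linarith
  calc (Fintype.card (Site d n) : ℝ) * (a (2 * s) - a (2 * s + 1)) * (2 * s + 1)
      = (Fintype.card (Site d n) : ℝ) * ((2 * s + 1 : ℝ) * (a (2 * s) - a (2 * s + 1))) := by ring
    _ ≤ (Fintype.card (Site d n) : ℝ) * (Fintype.card (Site d n) : ℝ) ^ 2 := mul_le_mul_of_nonneg_left h6 hN.le
    _ = (Fintype.card (Site d n) : ℝ) ^ 3 := by ring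

end CO
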