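import Pool.Agent.helper23.CO.SpecU

/-!
# Project co (MP_7c3fb3_pr), row ZNZ
-/

open Finset Filter Topology MeasureTheory

namespace CO

open CU

theorem ZNZ_Zpos {d : ℕ} (β h : ℝ) (Λ : Finset (ZSite d)) (ω : ZConf d) :
    0 < ∑ η : {x // x ∈ Λ} → Bool, zwt β h Λ (glue Λ η ω) := by
  apply Finset.sum_pos
  · intro η _
    exact Real.exp_pos _
  · exact ⟨fun _ => true, mem_univ _⟩

theorem ZNZ_mono {d : ℕ} (β h : ℝ) (Λ : Finset (ZSite d)) (f g : ZConf d → ℝ) (hfg : ∀ σ, f σ ≤ g σ) (ω : ZConf d) :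
    gam β h Λ f ω ≤ gam β h Λ g ω := by
  unfold gam
  apply div_le_div_of_nonneg_right _ (ZNZ_Zpos β h Λ ω).le
  apply sum_le_sum
  intro η _
  exact mul_le_mul_of_nonneg_left (hfg _) (Real.exp_pos _).le

theorem ZNZ_const {d : ℕ} (β h : ℝ) (Λ : Finset (ZSite d)) (c : ℝ) (ω : ZConf d) :
    gam β h Λ (fun _ => c) ω = c := by
  unfold gam
  rw [← sum_mul, mul_comm, mul_div_assoc, div_self (ZNZ_Zpos β h Λ ω).ne', mul_one]

theorem ZNZ_fmono {d : ℕ} (x : ZSite d) : Monotone (fun σ : ZConf d => if σ x = true then (1 : ℝ) else 0) := by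
  intro σ τ hst
  have h1 : σ x ≤ τ x := hst x
  show (if σ x = true then (1 : ℝ) else 0) ≤ (if τ x = true then (1 : ℝ) else 0)
  by_cases h2 : σ x = true
  · have h3 : τ x = true := by
      rw [h2] at h1
      exact top_le_iff.mp h1
    rw [if_pos h2, if_pos h3]
  · rw [if_neg h2]
    split_ifs <;> norm_num

theorem ZNZ_up (hZVA : ZVA_stmt) (hZVB : ZVB_stmt) {d : ℕ} (β h : ℝ) (hβ : 0 ≤ β) (Λ Λ' : Finset (ZSite d)) (hΛ : Λ ⊆ Λ')
    (f : ZConf d → ℝ) (hf : Monotone f) :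
    gam β h Λ' f (fun _ => true) ≤ gam β h Λ f (fun _ => true) := by
  rw [← hZVB d β h Λ Λ' hΛ f (fun _ => true)]
  have h1 := ZNZ_mono β h Λ' (fun σ => gam β h Λ f σ) (fun _ => gam β h Λ f (fun _ => true))
    (fun σ => hZVA d β h hβ Λ f hf σ (fun _ => true) (fun x => le_top)) (fun _ => true)
  rw [ZNZ_const] at h1
  exact h1

theorem ZNZ_lo (hZVA : ZVA_stmt) (hZVB : ZVB_stmt) {d : ℕ} (β h : ℝ) (hβ : 0 ≤ β) (Λ Λ' : Finset (ZSite d)) (hΛ : Λ ⊆ Λ')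
    (f : ZConf d → ℝ) (hf : Monotone f) :
    gam β h Λ f (fun _ => false) ≤ gam β h Λ' f (fun _ => false) := by
  rw [← hZVB d β h Λ Λ' hΛ f (fun _ => false)]
  have h1 := ZNZ_mono β h Λ' (fun _ => gam β h Λ f (fun _ => false)) (fun σ => gam β h Λ f σ)
    (fun σ => hZVA d β h hβ Λ f hf (fun _ => false) σ (fun x => bot_le)) (fun _ => false)
  rw [ZNZ_const] at h1
  exact h1

theorem ZNZ_box {d : ℕ} (S : Finset (ZSite d)) : ∃ K : ℕ, ∀ x ∈ S, ∀ L : ℕ, zBox L x ⊆ zBox (L + K) (0 : ZSite d) := by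
  refine ⟨S.sup fun x => univ.sup fun k => (x k).natAbs, ?_⟩
  intro x hx L y hy
  unfold zBox at hy ⊢
  rw [Fintype.mem_piFinset] at hy ⊢
  intro k
  have h1 := mem_Icc.mp (hy k)
  have h2 : (x k).natAbs ≤ S.sup fun x => univ.sup fun k => (x k).natAbs :=
    (le_sup (f := fun k => (x k).natAbs) (mem_univ k)).trans (le_sup (f := fun x : ZSite d => univ.sup fun k => (x k).natAbs) hx)
  rw [mem_Icc]
  have h3 : ((0 : ZSite d) k) = 0 := rfl
  rw [h3]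
  push_cast
  have h4 : |x k| ≤ ((S.sup fun x => univ.sup fun k => (x k).natAbs : ℕ) : ℤ) := by
    rw [Int.abs_eq_natAbs]
    exact_mod_cast h2
  have h5 := abs_le.mp h4
  constructor
  · linarith [h5.1, h1.1]
  · linarith [h5.2, h1.2]

theorem ZNZ (hZVA : ZVA_stmt) (hZVB : ZVB_stmt) (hZVG : ZVG_stmt) (hZTR : ZTR_stmt) (hZBX : ZBX_stmt) (hVP : CU.VP_stmt) (hSTAT : CWM.STAT_stmt) : ZNZ_stmt := by
  intro d β h hd hβ hh μ ν hμ hν
  apply hVP d μ ν hμ.1 hν.1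
  intro S
  obtain ⟨C, hC0, hC⟩ := hSTAT d β h hβ hh
  obtain ⟨K, hK⟩ := ZNZ_box S
  have hbd : ∀ L : ℕ, |μ.real {σ | ∀ x ∈ S, σ x = true} - ν.real {σ | ∀ x ∈ S, σ x = true}| ≤ (S.card : ℝ) * C / ((L : ℝ) + 1) := by
    intro L
    refine (hZVG d β h hβ μ ν hμ hν S (zBox (L + K) 0)).trans ?_
    have hterm : ∀ x ∈ S, (gam β h (zBox (L + K) 0) (fun σ => if σ x = true then (1 : ℝ) else 0) (fun _ => true) -
      gam β h (zBox (L + K) 0) (fun σ => if σ x = true then (1 : ℝ) else 0) (fun _ => false)) ≤ C / ((L : ℝ) + 1) := by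
      intro x hx
      have h1 := ZNZ_up hZVA hZVB β h hβ (zBox L x) (zBox (L + K) 0) (hK x hx L) _ (ZNZ_fmono x)
      have h2 := ZNZ_lo hZVA hZVB β h hβ (zBox L x) (zBox (L + K) 0) (hK x hx L) _ (ZNZ_fmono x)
      rw [hZTR d β h L x true, hZBX d β h L (2 * L) true le_rfl] at h1
      rw [hZTR d β h L x false, hZBX d β h L (2 * L) false le_rfl] at h2
      have h3 := hC (2 * L) 0 L
      unfold CWM.dl at h3
      have h4 : C / ((L : ℝ) + 1) ^ (4 * d) ≤ C / ((L : ℝ) + 1) := by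
        apply div_le_div_of_nonneg_left hC0 (by positivity)
        have h5 : (1 : ℝ) ≤ (L : ℝ) + 1 := by
          have : (0 : ℝ) ≤ (L : ℝ) := Nat.cast_nonneg L
          linarith
        calc ((L : ℝ) + 1) = ((L : ℝ) + 1) ^ 1 := (pow_one _).symm
          _ ≤ ((L : ℝ) + 1) ^ (4 * d) := pow_le_pow_right₀ h5 (by omega)
      linarith
    refine (sum_le_sum hterm).trans ?_
    rw [sum_const, nsmul_eq_mul, mul_div_assoc]
  by_contra hne
  have hpos : 0 < |μ.real {σ | ∀ x ∈ S, σ x = true} - ν.real {σ | ∀ x ∈ S, σ x = true}| := abs_pos.mpr (sub_ne_zero.mpr hne)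
  obtain ⟨L, hL⟩ := exists_nat_gt ((S.card : ℝ) * C / |μ.real {σ | ∀ x ∈ S, σ x = true} - ν.real {σ | ∀ x ∈ S, σ x = true}|)
  have h1 := hbd L
  rw [le_div_iff₀ (by positivity)] at h1
  rw [div_lt_iff₀ hpos] at hL
  nlinarith

end CO
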